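import Pool.Agent.Y577.EV.Stm

set_option autoImplicit false

/-! # EV2: the criterion for blocks with `2 ^ (c i)` vertices -/

namespace Pool.Agent.Y407.EV

open Finset Pool.Agent.H98R2.Ev Pool.Agent.TH410.KV Pool.Agent.Y577.EV
open Pool.Agent.H98R2.Nb (Inv)
open Pool.Agent.H98R2.Nb.N3 (ES toG_ES)

section basic

variable {𝓕 : Fam} {V W : Type} {G : SimpleGraph V} {H : SimpleGraph W}

theorem HH_hom (h : HH 𝓕 G) (f : G →g H) : HH 𝓕 H := by
  obtain ⟨F, hF, ⟨φ⟩⟩ := h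
  exact ⟨F, hF, ⟨f.comp φ⟩⟩

theorem not_HH_bot (h0 : ∀ F ∈ 𝓕, ¬ F.2.Colorable 1) : ¬ HH 𝓕 (⊥ : SimpleGraph V) := by
  rintro ⟨F, hF, ⟨f⟩⟩
  apply h0 F hF
  refine ⟨SimpleGraph.Coloring.mk (fun _ => (0 : Fin 1)) ?_⟩
  intro u v huv
  exact (f.map_adj huv).elim

end basic

section blocks

variable {B : Type} (c : B → ℕ)

/-- The vertices of the block `i` are the elements of `(ZMod 2) ^ (c i)`. -/
abbrev VX : Type := Σ i : B, (Fin (c i) → ZMod 2)

variable {c}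

/-- Independent translations of the blocks. -/
def tra (t : ∀ i : B, Fin (c i) → ZMod 2) : Equiv.Perm (VX c) :=
  Equiv.sigmaCongrRight fun i => Equiv.addRight (t i)

theorem tra_apply (t : ∀ i : B, Fin (c i) → ZMod 2) (i : B) (v : Fin (c i) → ZMod 2) :
    tra t ⟨i, v⟩ = ⟨i, v + t i⟩ := rfl

/-- The automorphisms `g i` of the blocks. -/
def cyv (g : ∀ i : B, (Fin (c i) → ZMod 2) ≃+ (Fin (c i) → ZMod 2)) : Equiv.Perm (VX c) :=
  Equiv.sigmaCongrRight fun i => (g i).toEquiv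

theorem cyv_apply (g : ∀ i : B, (Fin (c i) → ZMod 2) ≃+ (Fin (c i) → ZMod 2)) (i : B)
    (v : Fin (c i) → ZMod 2) : cyv g ⟨i, v⟩ = ⟨i, g i v⟩ := rfl

theorem tra_comm (s t : ∀ i : B, Fin (c i) → ZMod 2) : tra s * tra t = tra t * tra s := by
  apply Equiv.ext
  rintro ⟨i, v⟩
  rw [Equiv.Perm.mul_apply, Equiv.Perm.mul_apply, tra_apply, tra_apply, tra_apply, tra_apply,
    add_right_comm]

theorem tra_sq (t : ∀ i : B, Fin (c i) → ZMod 2) : tra t ^ 2 = 1 := by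
  apply Equiv.ext
  rintro ⟨i, v⟩
  rw [pow_two, Equiv.Perm.mul_apply, tra_apply, tra_apply, Equiv.Perm.one_apply, add_assoc]
  have h : t i + t i = 0 := by
    funext k
    exact CharTwo.add_self_eq_zero _
  rw [h, add_zero]

theorem cyv_tra (g : ∀ i : B, (Fin (c i) → ZMod 2) ≃+ (Fin (c i) → ZMod 2))
    (t : ∀ i : B, Fin (c i) → ZMod 2) :
    (cyv g)⁻¹ * tra t * cyv g = tra fun i => (g i).symm (t i) := by
  rw [mul_assoc, inv_mul_eq_iff_eq_mul]
  apply Equiv.ext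
  rintro ⟨i, v⟩
  rw [Equiv.Perm.mul_apply, Equiv.Perm.mul_apply, tra_apply, cyv_apply, cyv_apply, tra_apply,
    map_add, AddEquiv.apply_symm_apply]

theorem gr_adj {G : SimpleGraph B} {R : B → Prop} {x y : VX c} :
    (gr c G R).Adj x y ↔ G.Adj x.1 y.1 ∨ (x.1 = y.1 ∧ x ≠ y ∧ R x.1) := Iff.rfl

theorem gr_inv (G : SimpleGraph B) (R : B → Prop) (s : Equiv.Perm (VX c))
    (hs : ∀ x, (s x).1 = x.1) : Inv s (gr c G R) := by
  intro x y h
  rw [gr_adj] at h ⊢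
  rw [hs, hs]
  rcases h with h | ⟨h1, h2, h3⟩
  · exact Or.inl h
  · exact Or.inr ⟨h1, fun h => h2 (s.injective h), h3⟩

theorem inv_tra {G : SimpleGraph (VX c)} (hG : ∀ t, Inv (tra t) G) {x y : VX c}
    (t : ∀ i : B, Fin (c i) → ZMod 2) (h : G.Adj x y) :
    G.Adj (⟨x.1, x.2 + t x.1⟩ : VX c) ⟨y.1, y.2 + t y.1⟩ := hG t x y h

theorem inv_cyv {G : SimpleGraph (VX c)}
    {g : ∀ i : B, (Fin (c i) → ZMod 2) ≃+ (Fin (c i) → ZMod 2)} (hG : Inv (cyv g) G) {i : B}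
    {u v : Fin (c i) → ZMod 2} (h : G.Adj (⟨i, u⟩ : VX c) ⟨i, v⟩) (m : ℕ) :
    G.Adj (⟨i, (⇑(g i))^[m] u⟩ : VX c) ⟨i, (⇑(g i))^[m] v⟩ := by
  induction m with
  | zero => exact h
  | succ m ih =>
    rw [Function.iterate_succ_apply', Function.iterate_succ_apply']
    exact hG _ _ ih

/-- Translations are transitive on the pairs of vertices of two different blocks. -/
theorem adj_ne [DecidableEq B] {G : SimpleGraph (VX c)} (hG : ∀ t, Inv (tra t) G) {i j : B}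
    (hij : i ≠ j) {u u' : Fin (c i) → ZMod 2} {v v' : Fin (c j) → ZMod 2}
    (h : G.Adj (⟨i, u'⟩ : VX c) ⟨j, v'⟩) : G.Adj (⟨i, u⟩ : VX c) ⟨j, v⟩ := by
  have h1 := inv_tra hG (Function.update (Function.update (fun _ => 0) i (u - u')) j (v - v')) h
  simp only [Function.update_self, Function.update_of_ne hij] at h1
  rwa [add_sub_cancel, add_sub_cancel] at h1

/-- Translations and the powers of `g i` are transitive on the pairs of different vertices of a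
block. -/
theorem adj_eq {G : SimpleGraph (VX c)} (hG : ∀ t, Inv (tra t) G)
    {g : ∀ i : B, (Fin (c i) → ZMod 2) ≃+ (Fin (c i) → ZMod 2)} (hc : Inv (cyv g) G)
    (hg : ∀ i (x y : Fin (c i) → ZMod 2), x ≠ 0 → y ≠ 0 → ∃ m : ℕ, (⇑(g i))^[m] x = y)
    {i : B} {u v u' v' : Fin (c i) → ZMod 2}
    (huv : u ≠ v) (h : G.Adj (⟨i, u'⟩ : VX c) ⟨i, v'⟩) : G.Adj (⟨i, u⟩ : VX c) ⟨i, v⟩ := by
  classical
  have hne : u' ≠ v' := by
    rintro rfl
    exact G.loopless.irrefl _ h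
  have h1 := inv_tra hG (Function.update (fun _ => 0) i (-u')) h
  simp only [Function.update_self] at h1
  rw [add_neg_cancel] at h1
  obtain ⟨m, hm⟩ := hg i (v' + -u') (v + -u) (by
    rw [← sub_eq_add_neg, sub_ne_zero]; exact hne.symm) (by
    rw [← sub_eq_add_neg, sub_ne_zero]; exact huv.symm)
  have h2 := inv_cyv hc h1 m
  rw [hm] at h2
  have h3 : (⇑(g i))^[m] (0 : Fin (c i) → ZMod 2) = 0 := by
    clear hm h2
    induction m with
    | zero => rfl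
    | succ m ih => rw [Function.iterate_succ_apply', ih, map_zero]
  rw [h3] at h2
  have h4 := inv_tra hG (Function.update (fun _ => 0) i u) h2
  simp only [Function.update_self] at h4
  rwa [zero_add, neg_add_cancel_right] at h4

end blocks

section crit

variable {B : Type} [Fintype B] [DecidableEq B] (c : B → ℕ)

/-- The graph of a set of pairs of blocks and of blocks. -/
abbrev gA (A : Finset (EV B ⊕ {i // c i ≠ 0})) : SimpleGraph (VX c) :=
  gr c (toG A.toLeft) (fun i => ∃ h : c i ≠ 0, (⟨i, h⟩ : {i // c i ≠ 0}) ∈ A.toRight)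

variable {c}

theorem exists_ne_zero {n : ℕ} (hn : n ≠ 0) : ∃ v : Fin n → ZMod 2, v ≠ 0 := by
  refine ⟨fun _ => 1, fun h => ?_⟩
  have := congrFun h ⟨0, Nat.pos_of_ne_zero hn⟩
  exact one_ne_zero (α := ZMod 2) this

theorem gA_le (A A' : Finset (EV B ⊕ {i // c i ≠ 0})) : gA c A ≤ gA c A' ↔ A ⊆ A' := by
  constructor
  · rintro h (e | ⟨i, hi⟩) hx
    · obtain ⟨e, he⟩ := e
      induction e using Sym2.ind with
      | _ i j =>
        have hij : i ≠ j := by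
          rw [Sym2.mk_isDiag_iff] at he
          exact he
        have h1 : (gA c A).Adj (⟨i, 0⟩ : VX c) ⟨j, 0⟩ :=
          Or.inl ((toG_adj15 _ _ _).2 ⟨he, Finset.mem_toLeft.2 hx⟩)
        rcases h h1 with h2 | ⟨h2, -, -⟩
        · obtain ⟨h3, h4⟩ := (toG_adj15 _ _ _).1 h2
          exact Finset.mem_toLeft.1 h4
        · exact absurd h2 hij
    · obtain ⟨v, hv⟩ := exists_ne_zero hi
      have h1 : (gA c A).Adj (⟨i, 0⟩ : VX c) ⟨i, v⟩ := by
        refine Or.inr ⟨rfl, ?_, hi, Finset.mem_toRight.2 hx⟩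
        intro h2
        apply hv
        have h3 := (Sigma.mk.inj_iff.1 h2).2
        exact (eq_of_heq h3).symm
      rcases h h1 with h2 | ⟨-, -, h2, h3⟩
      · exact absurd h2 ((toG A'.toLeft).loopless.irrefl i)
      · exact Finset.mem_toRight.1 h3
  · intro h x y hxy
    rcases hxy with h1 | ⟨h1, h2, h3, h4⟩
    · exact Or.inl (toG_mono15 (Finset.toLeft_subset_toLeft h) h1)
    · exact Or.inr ⟨h1, h2, h3, Finset.toRight_subset_toRight h h4⟩

/-- The graph of the pairs of different blocks with an edge. -/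
def KB (G : SimpleGraph (VX c)) : SimpleGraph B where
  Adj i j := i ≠ j ∧ ∃ (u : Fin (c i) → ZMod 2) (v : Fin (c j) → ZMod 2),
    G.Adj (⟨i, u⟩ : VX c) ⟨j, v⟩
  symm := ⟨fun _ _ ⟨h, u, v, huv⟩ => ⟨h.symm, v, u, huv.symm⟩⟩
  loopless := ⟨fun _ h => h.1 rfl⟩

open Classical in
theorem gA_surj {G : SimpleGraph (VX c)} (hG : ∀ t, Inv (tra t) G)
    {g : ∀ i : B, (Fin (c i) → ZMod 2) ≃+ (Fin (c i) → ZMod 2)} (hc : Inv (cyv g) G)
    (hg : ∀ i (x y : Fin (c i) → ZMod 2), x ≠ 0 → y ≠ 0 → ∃ m : ℕ, (⇑(g i))^[m] x = y) :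
    ∃ A, gA c A = G := by
  let R : Finset {i // c i ≠ 0} := univ.filter fun i =>
    ∃ u v : Fin (c i.1) → ZMod 2, G.Adj (⟨i.1, u⟩ : VX c) ⟨i.1, v⟩
  refine ⟨(ES (KB G)).disjSum R, ?_⟩
  ext ⟨i, u⟩ ⟨j, v⟩
  show ((toG ((ES (KB G)).disjSum R).toLeft).Adj i j ∨ (i = j ∧ (⟨i, u⟩ : VX c) ≠ ⟨j, v⟩ ∧
    ∃ h : c i ≠ 0, (⟨i, h⟩ : {i // c i ≠ 0}) ∈ ((ES (KB G)).disjSum R).toRight)) ↔ _
  rw [Finset.toLeft_disjSum, Finset.toRight_disjSum, toG_ES]
  constructor
  · rintro (⟨h1, u', v', h2⟩ | ⟨rfl, h2, h3, h4⟩)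
    · exact adj_ne hG h1 h2
    · obtain ⟨-, u', v', h5⟩ := Finset.mem_filter.1 h4
      refine adj_eq hG hc hg ?_ h5
      rintro rfl
      exact h2 rfl
  · intro h
    by_cases hij : i = j
    · subst hij
      have huv : u ≠ v := by
        rintro rfl
        exact G.loopless.irrefl _ h
      refine Or.inr ⟨rfl, h.ne, ?_, Finset.mem_filter.2 ⟨mem_univ _, u, v, h⟩⟩
      intro h0
      apply huv
      funext k
      rw [h0] at k
      exact k.elim0
    · exact Or.inl ⟨hij, u, v, h⟩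

open Classical in
theorem t (h : S_gen) : S_crit := by
  intro B _ _ c 𝓕 h0 hne
  choose g hg using fun i => h (c i)
  have hcrit := Pool.Agent.H98R2.Nb.GC.graph_criterion (V := VX c) (fun G => ¬ HH 𝓕 G)
    (fun G G' hGG' hP h => hP (HH_hom h (SimpleGraph.Hom.ofLE hGG')))
    (fun s G hP h => hP (HH_hom h (SimpleGraph.Iso.map s G).symm.toHom))
    (not_HH_bot h0) hne 2 2 0 (fun t : (∀ i, Fin (c i) → ZMod 2) => tra t) (cyv g) 1
    (fun s t => tra_comm s t) (fun t => tra_sq t) (one_pow _)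
    (fun t => by rw [mul_one, one_mul])
    (fun G hG t => by rw [cyv_tra]; exact hG _)
    (fun G _ hG => by rw [inv_one, one_mul, mul_one]; exact hG)
    (fun A : Finset (EV B ⊕ {i // c i ≠ 0}) => gA c A)
    (fun A A' => gA_le A A') (fun A t => gr_inv _ _ _ fun _ => rfl)
    (fun A => gr_inv _ _ _ fun _ => rfl) (fun A => gr_inv _ _ _ fun _ => rfl)
    (fun G _ hG1 hG2 _ => gA_surj hG1 hG2 hg)
  have e : (∑ A : Finset (EV B ⊕ {i // c i ≠ 0}),
      if ¬ HH 𝓕 (gr c (toG A.toLeft)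
          (fun i => ∃ h : c i ≠ 0, (⟨i, h⟩ : {i // c i ≠ 0}) ∈ A.toRight))
        then (-1 : ℤ) ^ A.card else 0) =
      ∑ A : Finset (EV B ⊕ {i // c i ≠ 0}), if ¬ HH 𝓕 (gA c A) then (-1 : ℤ) ^ A.card else 0 :=
    Finset.sum_congr rfl fun A _ => if_congr Iff.rfl rfl rfl
  rw [e]
  exact_mod_cast hcrit

end crit

end Pool.Agent.Y407.EV
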